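import Mathlib
import Pool.Agent.H37.CNL.Stmts
import Pool.Agent.H52.CNK.YIC

/-!
Board cnl, row VIC (the body is that of YIC by helper52; the ultrametric inequality of the coset sums is
proved from the one of b, so VSM is not needed).
-/

set_option autoImplicit false

namespace Pool.CND

open Finset

/-- the value of the coset sum as a function of the largest value on the coset -/
noncomputable def vicPhi {G : Type} [Group G] [Fintype G] (b : G → ℤ) (Z : Subgroup G) (j : ℤ) : ℤ :=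
  open scoped Classical in sm (fun c => if c = 1 then j else min j (b c)) (Z : Set G)

theorem vicPhi_mono {G : Type} [Group G] [Fintype G] (b : G → ℤ) (Z : Subgroup G) {j j' : ℤ}
    (h : j ≤ j') : vicPhi b Z j ≤ vicPhi b Z j' := by
  classical
  unfold vicPhi
  refine yic_le _ _ _ (fun c _ => ?_)
  by_cases hc : c = 1
  · simp only [hc, if_true]
    exact h
  · simp only [hc, if_false]
    exact min_le_min_right _ h

theorem vic_coset {G : Type} [Group G] [Fintype G] (b : G → ℤ) (Z : Subgroup G)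
    (hUM : UM b (⊤ : Subgroup G)) (g g₀ : G) (hg : g ∉ Z) (h0 : g⁻¹ * g₀ ∈ Z)
    (hmax : ∀ y, g⁻¹ * y ∈ Z → b y ≤ b g₀) :
    sm b {y | g⁻¹ * y ∈ Z} = vicPhi b Z (b g₀) := by
  classical
  have h1 : {y | g⁻¹ * y ∈ Z} = {y | g₀⁻¹ * y ∈ (Z : Set G)} := by
    ext y
    simp only [Set.mem_ofPred_eq, SetLike.mem_coe]
    constructor
    · intro hy
      have h2 := Z.mul_mem (Z.inv_mem h0) hy
      have h3 : (g⁻¹ * g₀)⁻¹ * (g⁻¹ * y) = g₀⁻¹ * y := by group
      rwa [h3] at h2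
    · intro hy
      have h2 := Z.mul_mem h0 hy
      have h3 : g⁻¹ * g₀ * (g₀⁻¹ * y) = g⁻¹ * y := by group
      rwa [h3] at h2
  rw [h1, yic_shift]
  unfold vicPhi
  rw [yic_sm, yic_sm]
  refine Finset.sum_congr rfl fun c _ => ?_
  by_cases hc : c ∈ (Z : Set G)
  · simp only [hc, if_true]
    by_cases hc1 : c = 1
    · simp [hc1]
    · simp only [hc1, if_false]
      have hg0 : g₀ ≠ 1 := by
        rintro rfl
        rw [mul_one] at h0
        exact hg (by simpa using Z.inv_mem h0)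
      have hcZ : c ∈ Z := hc
      have hg0Z : g₀ ∉ Z := by
        intro h
        have h2 := Z.mul_mem h (Z.inv_mem h0)
        have h3 : g₀ * (g⁻¹ * g₀)⁻¹ = g := by group
        rw [h3] at h2
        exact hg h2
      have hgc : g₀ * c ≠ 1 := by
        intro h
        apply hg0Z
        have h2 : g₀ = c⁻¹ := eq_inv_of_mul_eq_one_left h
        rw [h2]
        exact Z.inv_mem hcZ
      have hle : b (g₀ * c) ≤ b g₀ := by
        refine hmax _ ?_
        rw [← mul_assoc]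
        exact Z.mul_mem h0 hcZ
      have h4 := hUM.mul g₀ trivial c trivial hg0 hc1 hgc
      refine le_antisymm (le_min hle ?_) h4
      by_contra h5
      rw [not_le] at h5
      -- b c < b (g₀ c) ≤ b g₀
      have h6 := hUM.mul g₀⁻¹ trivial (g₀ * c) trivial (inv_ne_one.2 hg0) hgc (by
        rw [inv_mul_cancel_left]
        exact hc1)
      rw [inv_mul_cancel_left, hUM.inv g₀ trivial hg0, min_eq_right hle] at h6
      exact absurd h6 (not_le.2 h5)
  · simp only [hc, if_false]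

theorem vic_exists {G : Type} [Group G] [Fintype G] (b : G → ℤ) (Z : Subgroup G) (g : G) :
    ∃ g₀, g⁻¹ * g₀ ∈ Z ∧ ∀ y, g⁻¹ * y ∈ Z → b y ≤ b g₀ := by
  classical
  obtain ⟨g₀, h1, h2⟩ := Finset.exists_max_image (Finset.univ.filter fun y => g⁻¹ * y ∈ Z) b
    ⟨g, by simp [Z.one_mem]⟩
  simp only [Finset.mem_filter, Finset.mem_univ, true_and] at h1 h2
  exact ⟨g₀, h1, h2⟩

theorem vic_inv {G : Type} [Group G] [Fintype G] (b : G → ℤ) (Z : Subgroup G) (hZ : Z.Normal)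
    (hUM : UM b (⊤ : Subgroup G)) (g : G) (hg : g ∉ Z) :
    sm b {y | g⁻¹⁻¹ * y ∈ Z} ≤ sm b {y | g⁻¹ * y ∈ Z} := by
  obtain ⟨g₀, h1, h2⟩ := vic_exists b Z g
  obtain ⟨k₀, h3, h4⟩ := vic_exists b Z g⁻¹
  have hg' : g⁻¹ ∉ Z := fun h => hg (by simpa using Z.inv_mem h)
  rw [vic_coset b Z hUM g g₀ hg h1 h2, vic_coset b Z hUM g⁻¹ k₀ hg' h3 h4]
  refine vicPhi_mono b Z ?_
  have hk0 : k₀ ≠ 1 := by
    rintro rfl
    rw [mul_one] at h3
    exact hg (by simpa using h3)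
  rw [← hUM.inv k₀ trivial hk0]
  refine h2 _ ?_
  -- g⁻¹ k₀⁻¹ in Z
  have h5 := hZ.conj_mem _ (Z.inv_mem h3) g⁻¹
  have h6 : g⁻¹ * (g⁻¹⁻¹ * k₀)⁻¹ * g⁻¹⁻¹ = g⁻¹ * k₀⁻¹ := by group
  rwa [h6] at h5

theorem vic_mul {G : Type} [Group G] [Fintype G] (b : G → ℤ) (Z : Subgroup G) (hZ : Z.Normal)
    (hUM : UM b (⊤ : Subgroup G)) (g h : G) (hg : g ∉ Z) (hh : h ∉ Z) (hgh : g * h ∉ Z) :
    min (sm b {y | g⁻¹ * y ∈ Z}) (sm b {y | h⁻¹ * y ∈ Z}) ≤ sm b {y | (g * h)⁻¹ * y ∈ Z} := by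
  obtain ⟨g₀, h1, h2⟩ := vic_exists b Z g
  obtain ⟨k₀, h3, h4⟩ := vic_exists b Z h
  obtain ⟨m₀, h5, h6⟩ := vic_exists b Z (g * h)
  rw [vic_coset b Z hUM g g₀ hg h1 h2, vic_coset b Z hUM h k₀ hh h3 h4,
    vic_coset b Z hUM (g * h) m₀ hgh h5 h6]
  have hmem : (g * h)⁻¹ * (g₀ * k₀) ∈ Z := by
    have h7 := hZ.conj_mem _ h1 h⁻¹
    have h8 := Z.mul_mem h7 h3
    have h9 : h⁻¹ * (g⁻¹ * g₀) * h⁻¹⁻¹ * (h⁻¹ * k₀) = (g * h)⁻¹ * (g₀ * k₀) := by group
    rwa [h9] at h8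
  have hne : ∀ a a₀ : G, a ∉ Z → a⁻¹ * a₀ ∈ Z → a₀ ≠ 1 := by
    rintro a a₀ ha h7 rfl
    rw [mul_one] at h7
    exact ha (by simpa using Z.inv_mem h7)
  have h10 : min (b g₀) (b k₀) ≤ b m₀ :=
    (hUM.mul g₀ trivial k₀ trivial (hne g g₀ hg h1) (hne h k₀ hh h3) (hne _ _ hgh hmem)).trans
      (h6 _ hmem)
  rcases min_cases (b g₀) (b k₀) with ⟨h11, _⟩ | ⟨h11, _⟩
  · rw [h11] at h10
    exact (min_le_left _ _).trans (vicPhi_mono b Z h10)
  · rw [h11] at h10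
    exact (min_le_right _ _).trans (vicPhi_mono b Z h10)

/-- row VIC (VSM is not needed) -/
theorem vic_thm (hVAS : S_VAS) : S_VIC := by
  intro p k L G _ _ _ _ _ _ ρ t P Δ z M B u C₁ hP hoz hcz hM hB hBM hzB hcard hu hC
  classical
  obtain ⟨b, hb⟩ : ∃ b : G → ℤ, b = fun g => P.b (ρ g) := ⟨_, rfl⟩
  obtain ⟨Z, hZ⟩ : ∃ Z : Subgroup G, Z = Subgroup.zpowers z := ⟨_, rfl⟩
  have hSo : ∀ K : Subgroup G, So P ρ K = sm b {g | g ∉ K} := by
    intro K
    rw [hb]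
    rfl
  rw [← hb, ← hZ] at hC
  rw [← hb] at hu
  rw [← hb, ← hZ]
  simp only [hSo] at hC ⊢
  have hZB : Z ≤ B := by
    rw [hZ, Subgroup.zpowers_le]
    exact hzB
  have hZn : Z.Normal := by
    rw [hZ]
    constructor
    rintro _ ⟨n, rfl⟩ g
    refine ⟨n, ?_⟩
    have h1 : Commute g z := hcz g
    have h2 := h1.zpow_right n
    change z ^ n = g * z ^ n * g⁻¹
    rw [h2.eq, mul_inv_cancel_right]
  have hp := hP.pr
  have hB0 : 0 < Nat.card B := Nat.card_pos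
  have hB0' : (0 : ℤ) < Nat.card B := by exact_mod_cast hB0
  have hZ0' : (0 : ℤ) < Nat.card Z := by exact_mod_cast Nat.card_pos
  -- ultrametric inequality of β
  obtain ⟨-, -, -, hUM, -⟩ := hVAS p k L G ρ t P Δ hP
  rw [← hb] at hUM
  obtain ⟨β, hβ⟩ : ∃ β : G → ℤ, β = fun g => sm b {y | g⁻¹ * y ∈ Z} := ⟨_, rfl⟩
  have hβ' : ∀ g : G, sm b {y | g⁻¹ * y ∈ Z} = β g := fun g => by rw [hβ]
  simp only [hβ'] at hC ⊢
  have hinv : ∀ g : G, g ∉ Z → β g⁻¹ = β g := by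
    intro g hg
    have hg' : g⁻¹ ∉ Z := fun h => hg (by simpa using Z.inv_mem h)
    have h1 := vic_inv b Z hZn hUM g hg
    have h2 := vic_inv b Z hZn hUM g⁻¹ hg'
    rw [hβ', hβ'] at h1 h2
    rw [inv_inv] at h2
    exact le_antisymm h1 h2
  have hmul : ∀ g h : G, g ∉ Z → h ∉ Z → g * h ∉ Z → min (β g) (β h) ≤ β (g * h) := by
    intro g h hg hh hgh
    have h1 := vic_mul b Z hZn hUM g h hg hh hgh
    rw [hβ', hβ', hβ'] at h1
    exact h1
  -- first part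
  have hTc : ∀ g ∈ {g : G | g ∈ M ∧ g ∉ B}, ∀ c ∈ B, g * c ∈ {g : G | g ∈ M ∧ g ∉ B} := by
    rintro g ⟨hg1, hg2⟩ c hc
    refine ⟨M.mul_mem hg1 (hBM hc), fun h => hg2 ?_⟩
    have := B.mul_mem h (B.inv_mem hc)
    rwa [mul_inv_cancel_right] at this
  have hcT : (Nat.card {g : G | g ∈ M ∧ g ∉ B} : ℤ) = (p - 1) * Nat.card B := by
    have h1 : Nat.card M = Nat.card {g : G | g ∈ M ∧ g ∉ B} + Nat.card B := by
      have e1 : Nat.card M = (Set.ncard (M : Set G)) := rfl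
      have e2 : Nat.card B = (Set.ncard (B : Set G)) := rfl
      have e3 : Nat.card {g : G | g ∈ M ∧ g ∉ B} = Set.ncard {g : G | g ∈ M ∧ g ∉ B} := rfl
      rw [e1, e2, e3, ← Set.ncard_union_eq ?_ (Set.toFinite _) (Set.toFinite _)]
      · congr 1
        ext g
        simp only [SetLike.mem_coe, Set.mem_union, Set.mem_ofPred_eq]
        constructor
        · intro h
          by_cases hgB : g ∈ B
          · exact Or.inr hgB
          · exact Or.inl ⟨h, hgB⟩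
        · rintro (h | h)
          · exact h.1
          · exact hBM h
      · rw [Set.disjoint_left]
        rintro g ⟨_, h1⟩ h2
        exact h1 h2
    have h2 : (Nat.card M : ℤ) = p * Nat.card B := by exact_mod_cast hcard
    have h3 : (Nat.card M : ℤ) = Nat.card {g : G | g ∈ M ∧ g ∉ B} + Nat.card B := by
      exact_mod_cast h1
    linear_combination h2 - h3
  have hMB : sm b {g : G | g ∈ M ∧ g ∉ B} = (p - 1) * (Nat.card B * u) := by
    have h1 := yic_dc b B {g : G | g ∈ M ∧ g ∉ B} hTc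
    rw [yic_mul _ (Nat.card B * u) _ (fun g hg => hu g hg.1 hg.2), hcT] at h1
    have h2 : (Nat.card B : ℤ) * sm b {g : G | g ∈ M ∧ g ∉ B} =
        Nat.card B * ((p - 1) * (Nat.card B * u)) := by
      rw [← h1]
      ring
    exact mul_left_cancel₀ hB0'.ne' h2
  have hSB : sm b {g | g ∉ B} = sm b {g | g ∉ M} + (p - 1) * (Nat.card B * u) := by
    rw [← hMB]
    refine yic_split b _ _ _ (fun g => ?_) (fun g hg hg' => hg hg'.1)
    simp only [Set.mem_ofPred_eq]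
    constructor
    · intro h
      by_cases hgM : g ∈ M
      · exact Or.inr ⟨hgM, h⟩
      · exact Or.inl hgM
    · rintro (h | h)
      · exact fun hgB => h (hBM hgB)
      · exact h.2
  have hSZ : sm b {g | g ∉ Z} = sm b {g | g ∉ B} + sm b {g | g ∈ B ∧ g ∉ Z} := by
    refine yic_split b _ _ _ (fun g => ?_) (fun g hg hg' => hg hg'.1)
    simp only [Set.mem_ofPred_eq]
    constructor
    · intro h
      by_cases hgB : g ∈ B
      · exact Or.inr ⟨hgB, h⟩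
      · exact Or.inl hgB
    · rintro (h | h)
      · exact fun hgZ => h (hZB hgZ)
      · exact h.2
  -- the sum over a coset of B
  have hBZc : ∀ g ∈ {g : G | g ∈ B ∧ g ∉ Z}, ∀ c ∈ Z, g * c ∈ {g : G | g ∈ B ∧ g ∉ Z} := by
    rintro g ⟨hg1, hg2⟩ c hc
    refine ⟨B.mul_mem hg1 (hZB hc), fun h => hg2 ?_⟩
    have := Z.mul_mem h (Z.inv_mem hc)
    rwa [mul_inv_cancel_right] at this
  have hBZ : Nat.card Z * sm b {g : G | g ∈ B ∧ g ∉ Z} = sm β {g : G | g ∈ B ∧ g ∉ Z} := by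
    rw [← yic_dc b Z _ hBZc, hβ]
  have hcos : ∀ g ∈ M, g ∉ B → (Nat.card B * u : ℤ) = β g + sm b {x | g⁻¹ * x ∈ {c : G | c ∈ B ∧ c ∉ Z}} := by
    intro g hg hgB
    rw [← hu g hg hgB, ← hβ']
    refine yic_split b _ _ _ (fun x => ?_) (fun x hx hx' => hx'.2 hx)
    simp only [Set.mem_ofPred_eq]
    constructor
    · intro h
      by_cases hgZ : g⁻¹ * x ∈ Z
      · exact Or.inl hgZ
      · exact Or.inr ⟨h, hgZ⟩
    · rintro (h | h)
      · exact hZB h
      · exact h.1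
  have hgc : ∀ g : G, Nat.card Z * sm b {x | g⁻¹ * x ∈ {c : G | c ∈ B ∧ c ∉ Z}} =
      sm (fun c => β (g * c)) {c : G | c ∈ B ∧ c ∉ Z} := by
    intro g
    rw [← yic_dc b Z {x | g⁻¹ * x ∈ {c : G | c ∈ B ∧ c ∉ Z}} ?_]
    · rw [yic_shift]
      simp only [hβ']
    · intro x hx c hc
      have h1 := hBZc _ hx c hc
      rwa [mul_assoc] at h1
  have hnot : ∀ g ∈ M, g ∉ B → ∀ c ∈ B, g ∉ Z ∧ g * c ∉ Z := by
    intro g _ hgB c hc
    refine ⟨fun h => hgB (hZB h), fun h => hgB ?_⟩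
    have := B.mul_mem (hZB h) (B.inv_mem hc)
    rwa [mul_inv_cancel_right] at this
  have hA : ∀ g ∈ M, g ∉ B → (∀ c ∈ B, c ∉ Z → β (g * c) ≤ β g) →
      (Nat.card B * u : ℤ) ≤ β g + sm b {g : G | g ∈ B ∧ g ∉ Z} := by
    intro g hg hgB hmax
    have h1 : sm (fun c => β (g * c)) {c : G | c ∈ B ∧ c ∉ Z} ≤ sm β {g : G | g ∈ B ∧ g ∉ Z} := by
      refine yic_le _ _ _ (fun c hc => ?_)
      obtain ⟨hgZ, hgcZ⟩ := hnot g hg hgB c hc.1
      have hgZ' : g⁻¹ ∉ Z := fun h => hgZ (by simpa using Z.inv_mem h)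
      have h2 := hmul g⁻¹ (g * c) hgZ' hgcZ (by rw [inv_mul_cancel_left]; exact hc.2)
      rw [inv_mul_cancel_left, hinv g hgZ, min_eq_right (hmax c hc.1 hc.2)] at h2
      exact h2
    rw [← hgc, ← hBZ] at h1
    have h2 := le_of_mul_le_mul_left h1 hZ0'
    rw [hcos g hg hgB]
    linarith
  have hA' : ∀ g ∈ M, g ∉ B → (∀ c ∈ B, c ∉ Z → β c ≤ β g) →
      β g + sm b {g : G | g ∈ B ∧ g ∉ Z} ≤ (Nat.card B * u : ℤ) := by
    intro g hg hgB hmax
    have h1 : sm β {g : G | g ∈ B ∧ g ∉ Z} ≤ sm (fun c => β (g * c)) {c : G | c ∈ B ∧ c ∉ Z} := by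
      refine yic_le _ _ _ (fun c hc => ?_)
      obtain ⟨hgZ, hgcZ⟩ := hnot g hg hgB c hc.1
      have h2 := hmul g c hgZ hc.2 hgcZ
      rw [min_eq_right (hmax c hc.1 hc.2)] at h2
      exact h2
    rw [← hgc, ← hBZ] at h1
    have h2 := le_of_mul_le_mul_left h1 hZ0'
    rw [hcos g hg hgB]
    linarith
  have hcard' : (Nat.card M : ℤ) = p * Nat.card B := by exact_mod_cast hcard
  have hmain : (Nat.card M : ℤ) * u + sm b {g | g ∉ M} ≤ C₁ := by
    -- an element of M \ B with β maximal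
    have hex : ∃ g, g ∈ M ∧ g ∉ B := by
      by_contra hcon
      push Not at hcon
      have h1 : M ≤ B := fun g hg => hcon g hg
      have h2 : M = B := le_antisymm h1 hBM
      rw [h2] at hcard
      have h3 := hp.two_le
      nlinarith
    obtain ⟨g₀, hg₀M, hg₀B⟩ := hex
    obtain ⟨g, hg, hmax⟩ := Finset.exists_max_image (Finset.univ.filter fun g => g ∈ M ∧ g ∉ B) β
      ⟨g₀, by simp [hg₀M, hg₀B]⟩
    simp only [Finset.mem_filter, Finset.mem_univ, true_and] at hg hmax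
    have h1 := hA g hg.1 hg.2 (fun c hc _ => hmax (g * c) (hTc g hg c hc))
    have h2 := hC g (hnot g hg.1 hg.2 1 B.one_mem).1
    rw [hcard']
    linarith [h1, h2, hSZ, hSB]
  refine ⟨hSB, hmain, ?_⟩
  rintro ⟨g, hg, hgB, he⟩
  have h1 := hA' g hg hgB (fun c _ hcZ => by
    have := hC c hcZ
    linarith)
  refine le_antisymm hmain ?_
  rw [hcard']
  linarith [h1, he, hSZ, hSB]

end Pool.CND
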